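import Pool.Agent.H71.VA.G7a
import Pool.Agent.H25.VA.Mol
import Pool.Agent.H78.VA.G3a

set_option autoImplicit false

/-!
# The transversal derivative of the averages is small in the mean
-/

namespace H9.VA

open MeasureTheory Set Metric Filter Topology H82.Bil H87.BP H87.VA

open H71.VA

/-- the estimate on a compact set -/
lemma om_compact {T : Table} [Fintype T.ι] {f : ℂ × Dir → ℝ} {M : ℝ} (hf : Measurable f)
    (hM0 : 0 ≤ M) (hM : ∀ a, |f a| ≤ M) {K : Set ℂ} (hK : IsCompact K) {d0 δ ε B : ℝ}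
    (hd : ∀ x ∈ K, ball x d0 ⊆ T.U) (hεd : ε ≤ d0) {k k' : ℝ → ℝ} (kk : Ker ε B k k')
    (ho : ∀ t, |t| < ε → ∫ a in K ×ˢ (univ : Set Dir), |f (sh t a) - f a| ≤ δ) (hδ : 0 ≤ δ) :
    ∫ a in K ×ˢ (univ : Set Dir), (KK T (fun t => - k' t) f a) ^ 2 ≤
      2 * M * δ * (B / ε) ^ 2 := by
  have hki : Integrable k' := H25.VA.ker_integrable' kk
  have hka : Integrable (fun t => |k' t|) := hki.abs
  have kc : Continuous k' := kk.cont
  set A : Set (ℂ × Dir) := K ×ˢ (univ : Set Dir) with hA
  have hAc : IsCompact A := hK.prod isCompact_univ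
  have hfin : IsFiniteMeasure (volume.restrict A) := ⟨by
    rw [Measure.restrict_apply_univ]; exact hAc.measure_lt_top⟩
  have hmF : Measurable fun p : (ℂ × Dir) × ℝ => f (sh p.2 p.1) - f p.1 :=
    (hf.comp continuous_sh2.measurable).sub (hf.comp measurable_fst)
  have hdiff : ∀ a b : ℂ × Dir, |f a - f b| ≤ 2 * M := fun a b => by
    calc |f a - f b| ≤ |f a| + |f b| := abs_sub _ _
      _ ≤ 2 * M := by linarith [hM a, hM b]
  have hBε : 0 ≤ B / ε := (integral_nonneg fun t => abs_nonneg (k' t)).trans kk.int'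
  -- integrability on the product
  have hI : Integrable (fun p : (ℂ × Dir) × ℝ => |k' p.2| * |f (sh p.2 p.1) - f p.1|)
      ((volume.restrict A).prod volume) := by
    have h1 : Integrable (fun p : (ℂ × Dir) × ℝ => (2 * M) * |k' p.2|)
        ((volume.restrict A).prod volume) :=
      Integrable.mul_prod (f := fun _ : ℂ × Dir => 2 * M) (g := fun t => |k' t|)
        (integrable_const _) hka
    refine h1.mono' ?_ (Eventually.of_forall fun p => ?_)
    · exact ((kc.measurable.comp measurable_snd).abs.mul hmF.abs).aestronglyMeasurable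
    · rw [Real.norm_eq_abs, abs_mul, abs_abs, abs_abs, mul_comm]
      exact mul_le_mul_of_nonneg_right (hdiff _ _) (abs_nonneg _)
  have hpt : ∀ a ∈ A, |KK T (fun t => - k' t) f a| ≤ ∫ t, |k' t| * |f (sh t a) - f a| := by
    intro a ha
    have hXm : Measurable fun t => f (sh t a) :=
      hf.comp ((continuous_sh2.comp (Continuous.prodMk_right a)).measurable)
    have e1 : KK T (fun t => - k' t) f a = ∫ t, - k' t * f (sh t a) := by
      unfold KK
      refine integral_congr_ae ?_
      have h0 : ∀ᵐ t : ℝ, t ≠ 0 := by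
        rw [ae_iff]; simp
      filter_upwards [h0] with t ht
      by_cases hte : ε ≤ |t|
      · simp only [kk.supp' t hte, neg_zero, zero_mul]
      · have := XX_far (hd a.1 ha.1) f ht (lt_of_lt_of_le (not_le.1 hte) hεd) a.2
        rw [this]
    have hi1 : Integrable fun t => - k' t * f (sh t a) := by
      refine (hka.mul_const M).mono' (kc.measurable.neg.mul hXm).aestronglyMeasurable
        (Eventually.of_forall fun t => ?_)
      rw [Real.norm_eq_abs, abs_mul, abs_neg]
      exact mul_le_mul_of_nonneg_left (hM _) (abs_nonneg _)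
    have e2 : (0 : ℝ) = ∫ t, - k' t * f a := by
      rw [integral_mul_const, integral_neg, H25.VA.ker_int_zero kk, neg_zero, zero_mul]
    have e3 : KK T (fun t => - k' t) f a = ∫ t, - k' t * (f (sh t a) - f a) := by
      rw [e1, ← sub_zero (∫ t, - k' t * f (sh t a))]
      conv_lhs => rw [e2]
      have hi2 : Integrable fun t => - k' t * f a := hki.neg.mul_const _
      rw [← integral_sub hi1 hi2]
      exact integral_congr_ae (Eventually.of_forall fun t => by ring)
    rw [e3]
    refine (abs_integral_le_integral_abs).trans (le_of_eq ?_)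
    refine integral_congr_ae (Eventually.of_forall fun t => ?_)
    simp only [abs_mul, abs_neg]
  have hpt2 : ∀ a ∈ A, (KK T (fun t => - k' t) f a) ^ 2 ≤
      (2 * M * (B / ε)) * ∫ t, |k' t| * |f (sh t a) - f a| := by
    intro a ha
    have h1 := hpt a ha
    have h2 : |KK T (fun t => - k' t) f a| ≤ 2 * M * (B / ε) := by
      refine (H78.VA.KK_le hM0 hM hki.neg a).trans ?_
      simp only [Pi.neg_apply, abs_neg]
      have h3 := mul_le_mul_of_nonneg_left kk.int' hM0
      have h4 : 0 ≤ M * (B / ε) := mul_nonneg hM0 hBε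
      linarith
    rw [← sq_abs, sq]
    exact mul_le_mul h2 h1 (abs_nonneg _) ((abs_nonneg _).trans h2)
  calc ∫ a in A, (KK T (fun t => - k' t) f a) ^ 2
      ≤ ∫ a in A, (2 * M * (B / ε)) * ∫ t, |k' t| * |f (sh t a) - f a| := by
        refine integral_mono_of_nonneg (Eventually.of_forall fun a => sq_nonneg _)
          (hI.integral_prod_left.const_mul _) ?_
        exact (ae_restrict_iff' hAc.measurableSet).2 (Eventually.of_forall hpt2)
    _ = (2 * M * (B / ε)) * ∫ a in A, ∫ t, |k' t| * |f (sh t a) - f a| := integral_const_mul _ _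
    _ = (2 * M * (B / ε)) * ∫ t, ∫ a in A, |k' t| * |f (sh t a) - f a| := by
        rw [integral_integral_swap hI]
    _ ≤ (2 * M * (B / ε)) * ((B / ε) * δ) := by
        refine mul_le_mul_of_nonneg_left ?_ (by positivity)
        have h5 : ∫ t, ∫ a in A, |k' t| * |f (sh t a) - f a| ≤ ∫ t, |k' t| * δ := by
          refine integral_mono_of_nonneg (Eventually.of_forall fun t => ?_) (hka.mul_const δ)
            (Eventually.of_forall fun t => ?_)
          · exact integral_nonneg fun a => mul_nonneg (abs_nonneg _) (abs_nonneg _)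
          · simp only [integral_const_mul]
            by_cases hte : ε ≤ |t|
            · simp only [kk.supp' t hte, abs_zero, zero_mul, le_refl]
            · exact mul_le_mul_of_nonneg_left (ho t (not_le.1 hte)) (abs_nonneg _)
        rw [integral_mul_const] at h5
        exact h5.trans (mul_le_mul_of_nonneg_right kk.int' hδ)
    _ = _ := by ring

/-- **The transversal derivatives of the averages at scale `ε` are `o(1 / ε)` in the mean.** -/
theorem om {T : Table} [Fintype T.ι] {f : ℂ × Dir → ℝ} {M : ℝ} (hf : Measurable f)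
    (hM0 : 0 ≤ M) (hM : ∀ a, |f a| ≤ M) {δ : ℝ} (hδ : 0 < δ) : ∃ ε₀ : ℝ, 0 < ε₀ ∧
    ∀ (ε B : ℝ) (k k' : ℝ → ℝ), Ker ε B k k' → ε < ε₀ →
      ∫ a in T.U ×ˢ (univ : Set Dir), (KK T (fun t => - k' t) f a) ^ 2 ≤ δ * (B / ε) ^ 2 := by
  have hUf : volume T.U ≠ ⊤ := T.bounded.measure_lt_top.ne
  have hc1 : 0 < 2 * Real.pi * M ^ 2 + 1 := by positivity
  have hδ1 : ENNReal.ofReal (δ / 2 / (2 * Real.pi * M ^ 2 + 1)) ≠ 0 := by
    rw [Ne, ENNReal.ofReal_eq_zero, not_le]; positivity
  obtain ⟨K, hKU, hK, hKm⟩ := T.isOpen.measurableSet.exists_isCompact_sdiff_lt hUf hδ1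
  obtain ⟨d0, hd0, hd0'⟩ := hK.exists_thickening_subset_open T.isOpen hKU
  have hc2 : 0 < 2 * M + 1 := by positivity
  obtain ⟨d1, hd1, hd1'⟩ := om_small hf hM hK (δ := δ / 2 / (2 * M + 1)) (by positivity)
  refine ⟨min d0 d1, lt_min hd0 hd1, fun ε B k k' kk hε => ?_⟩
  have hBε : 0 ≤ B / ε := (integral_nonneg fun t => abs_nonneg (k' t)).trans kk.int'
  have h1 := om_compact (T := T) (δ := δ / 2 / (2 * M + 1)) (d0 := d0) hf hM0 hM hK
    (fun x hx => (ball_subset_thickening hx d0).trans hd0') (hε.trans_le (min_le_left _ _)).le kk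
    (fun t ht => hd1' t (ht.trans (hε.trans_le (min_le_right _ _)))) (by positivity)
  have hkm : Measurable (fun t => - k' t) := kk.cont.measurable.neg
  have hvm : Measurable (KK T (fun t => - k' t) f) := H78.VA.measurable_KK hf hkm
  have hvb : ∀ a, |KK T (fun t => - k' t) f a| ≤ M * (B / ε) := fun a => by
    refine (H78.VA.KK_le hM0 hM (H25.VA.ker_integrable' kk).neg a).trans ?_
    simp only [Pi.neg_apply, abs_neg]
    exact mul_le_mul_of_nonneg_left kk.int' hM0
  have hv2 : ∀ a, (KK T (fun t => - k' t) f a) ^ 2 ≤ (M * (B / ε)) ^ 2 := fun a => by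
    rw [← sq_abs]
    exact pow_le_pow_left₀ (abs_nonneg _) (hvb a) 2
  have hi : ∀ S : Set (ℂ × Dir), volume S ≠ ⊤ →
      IntegrableOn (fun a => (KK T (fun t => - k' t) f a) ^ 2) S := fun S hS =>
    Measure.integrableOn_of_bounded hS (hvm.pow_const 2).aestronglyMeasurable
      (Eventually.of_forall fun a => by
        rw [Real.norm_eq_abs, abs_of_nonneg (sq_nonneg _)]; exact hv2 a)
  have hu1 : T.U ×ˢ (univ : Set Dir) = (K ×ˢ (univ : Set Dir)) ∪ ((T.U \ K) ×ˢ (univ : Set Dir)) := by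
    rw [← union_prod, union_sdiff_cancel hKU]
  have hvolD : volume (univ : Set Dir) = ENNReal.ofReal (2 * Real.pi) := by
    exact AddCircle.measure_univ (2 * Real.pi)
  have hf1 : volume (K ×ˢ (univ : Set Dir)) ≠ ⊤ := (hK.prod isCompact_univ).measure_lt_top.ne
  have hf2 : volume ((T.U \ K) ×ˢ (univ : Set Dir)) ≠ ⊤ := by
    rw [Measure.volume_eq_prod, Measure.prod_prod, hvolD]
    exact ENNReal.mul_ne_top ((measure_mono sdiff_subset).trans_lt hUf.lt_top).ne
      ENNReal.ofReal_ne_top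
  have hdis : Disjoint (K ×ˢ (univ : Set Dir)) ((T.U \ K) ×ˢ (univ : Set Dir)) := by
    rw [Set.disjoint_prod]
    left
    exact disjoint_sdiff_self_right
  have hme : MeasurableSet ((T.U \ K) ×ˢ (univ : Set Dir)) :=
    (T.isOpen.measurableSet.diff hK.measurableSet).prod MeasurableSet.univ
  rw [hu1, setIntegral_union hdis hme (hi _ hf1) (hi _ hf2)]
  have h2 : ∫ a in (T.U \ K) ×ˢ (univ : Set Dir), (KK T (fun t => - k' t) f a) ^ 2 ≤
      (M * (B / ε)) ^ 2 * (δ / 2 / (2 * Real.pi * M ^ 2 + 1) * (2 * Real.pi)) := by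
    have h3 : ∫ a in (T.U \ K) ×ˢ (univ : Set Dir), (KK T (fun t => - k' t) f a) ^ 2 ≤
        ∫ _a in (T.U \ K) ×ˢ (univ : Set Dir), (M * (B / ε)) ^ 2 := by
      refine setIntegral_mono_on (hi _ hf2) (integrableOn_const hf2) hme fun a _ => hv2 a
    refine h3.trans ?_
    rw [setIntegral_const, smul_eq_mul, mul_comm]
    refine mul_le_mul_of_nonneg_left ?_ (sq_nonneg _)
    rw [measureReal_def, Measure.volume_eq_prod, Measure.prod_prod, hvolD, ENNReal.toReal_mul,
      ENNReal.toReal_ofReal (by positivity)]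
    refine mul_le_mul_of_nonneg_right ?_ (by positivity)
    exact ENNReal.toReal_le_of_le_ofReal (by positivity) hKm.le
  have h4 : 2 * M * (δ / 2 / (2 * M + 1)) ≤ δ / 2 := by
    rw [mul_div_assoc', div_le_iff₀ hc2]
    nlinarith
  have h5 : M ^ 2 * (δ / 2 / (2 * Real.pi * M ^ 2 + 1) * (2 * Real.pi)) ≤ δ / 2 := by
    have : M ^ 2 * (δ / 2 / (2 * Real.pi * M ^ 2 + 1) * (2 * Real.pi)) =
      δ / 2 * (2 * Real.pi * M ^ 2) / (2 * Real.pi * M ^ 2 + 1) := by ring
    rw [this, div_le_iff₀ hc1]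
    nlinarith
  calc _ ≤ 2 * M * (δ / 2 / (2 * M + 1)) * (B / ε) ^ 2 +
        (M * (B / ε)) ^ 2 * (δ / 2 / (2 * Real.pi * M ^ 2 + 1) * (2 * Real.pi)) :=
        add_le_add h1 h2
    _ = (2 * M * (δ / 2 / (2 * M + 1)) +
        M ^ 2 * (δ / 2 / (2 * Real.pi * M ^ 2 + 1) * (2 * Real.pi))) * (B / ε) ^ 2 := by ring
    _ ≤ (δ / 2 + δ / 2) * (B / ε) ^ 2 := by
        refine mul_le_mul_of_nonneg_right (add_le_add h4 h5) (sq_nonneg _)
    _ = _ := by ring

end H9.VA
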